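import Pool.Agent.Lib.MP_9cf0c9_mp.Tr.BaseC
import Pool.Agent.Lib.MP_9cf0c9_mp.Tr.EqualAll
import Pool.Agent.Lib.MP_9cf0c9_mp.Tr.Mol

set_option autoImplicit false

namespace Pool.Agent.Results.MP_9cf0c9_mp.EqualCharges

open MeasureTheory Set Filter Topology Pool.Agent Pool.Agent.Lib.MP_9cf0c9_mp

/-- Any number of equal nuclei, any number of electrons: the energy is differentiable in `l`, the
pressure is nonincreasing, and the reciprocal compressibility is nonnegative. -/
theorem result {k : ℕ} (z : Fin k → ℝ) (hz : ∀ j, 0 ≤ z j) (heq : ∀ i j, z i = z j)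
    (R : Fin k → E3) (hR : Function.Injective R) (lam : ℝ) (hlam : 0 ≤ lam) :
    (∀ l : ℝ, 0 < l → DifferentiableAt ℝ (dilated z R lam) l) ∧
      AntitoneOn (pressure z R lam) (Ioi 0) ∧
      ConvexOn ℝ (Ioi 0) (fun v : ℝ => dilated z R lam (v ^ (1 / 3 : ℝ))) ∧
      ∀ l : ℝ, 0 < l → DifferentiableAt ℝ (pressure z R lam) l →
        0 ≤ -(l / 3) * deriv (pressure z R lam) l :=
  equal_charges z hz heq R hR lam hlam

end Pool.Agent.Results.MP_9cf0c9_mp.EqualCharges
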