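import Pool.Agent.Lib.MP_9cf0c9_mp.Tr.BaseC
import Pool.Agent.Lib.MP_9cf0c9_mp.Tr.DisB
import Pool.Agent.Lib.MP_9cf0c9_mp.Tr.LightMain
import Pool.Agent.Lib.MP_9cf0c9_mp.Tr.Mol

set_option autoImplicit false

namespace Pool.Agent.Results.MP_9cf0c9_mp.IonRegimes

open MeasureTheory Set Filter Topology Pool.Agent Pool.Agent.Lib.MP_9cf0c9_mp

/-- Every molecule: above a finite critical scale `L lam`, nondecreasing in the electron number
`lam < Z` and equal to zero for few electrons, the energy is convex in the volume, the pressure is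
nonincreasing and the reciprocal compressibility is nonnegative. -/
theorem result {k : ℕ} (z : Fin k → ℝ) (hz : ∀ j, 0 ≤ z j) (R : Fin k → E3)
    (hR : Function.Injective R) :
    ∃ L : ℝ → ℝ, MonotoneOn L (Ico 0 (∑ j, z j)) ∧
      (∀ lam ∈ Ico 0 (∑ j, z j), 0 ≤ L lam) ∧
      (∀ lam ∈ Ico 0 (∑ j, z j), (∃ j, 0 < z j ∧ 30 * (∑ i, z i) ^ 2 * lam ≤ z j ^ 3) →
        L lam = 0) ∧
      ∀ lam ∈ Ico 0 (∑ j, z j),
        ConvexOn ℝ (Ioi (L lam ^ 3)) (fun v : ℝ => dilated z R lam (v ^ (1 / 3 : ℝ))) ∧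
          AntitoneOn (pressure z R lam) (Ioi (L lam)) ∧
          ∀ l : ℝ, L lam < l → DifferentiableAt ℝ (pressure z R lam) l →
            0 ≤ -(l / 3) * deriv (pressure z R lam) l := by
  set Q : ℝ → ℝ → Prop := fun L m =>
    ConvexOn ℝ (Ioi (L ^ 3)) (fun v : ℝ => dilated z R m (v ^ (1 / 3 : ℝ))) ∧
      AntitoneOn (pressure z R m) (Ioi L) ∧
      ∀ l : ℝ, L < l → DifferentiableAt ℝ (pressure z R m) l →
        0 ≤ -(l / 3) * deriv (pressure z R m) l with hQ
  set S : ℝ → Set ℝ := fun lam => {L | 0 ≤ L ∧ ∀ m, 0 ≤ m → m ≤ lam → Q L m} with hS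
  have hbdd : ∀ lam, BddBelow (S lam) := fun lam => ⟨0, fun L hL => hL.1⟩
  have hne : ∀ lam ∈ Ico 0 (∑ j, z j), (S lam).Nonempty := by
    intro lam h
    obtain ⟨L, hL, h1⟩ := dissociated z hz R hR h.1 h.2
    exact ⟨L, hL.le, h1⟩
  have hpos : ∀ lam ∈ Ico 0 (∑ j, z j), 0 ≤ sInf (S lam) := fun lam h =>
    le_csInf (hne lam h) fun L hL => hL.1
  refine ⟨fun lam => sInf (S lam), ?_, hpos, ?_, ?_⟩
  · intro a ha b hb hab
    exact csInf_le_csInf (hbdd a) (hne b hb) fun L hL =>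
      ⟨hL.1, fun m h0 hm => hL.2 m h0 (hm.trans hab)⟩
  · rintro lam h ⟨j, hj0, hj⟩
    refine le_antisymm (csInf_le (hbdd lam) ⟨le_rfl, fun m h0 hm => ?_⟩) (hpos lam h)
    have h1 := few_electrons z hz R hR m h0 ⟨j, hj0,
      (mul_le_mul_of_nonneg_left hm (by positivity)).trans hj⟩
    simpa [hQ] using h1
  · intro lam h
    refine ⟨⟨convex_Ioi _, ?_⟩, ?_, ?_⟩
    · intro x hx y hy a b ha hb hab
      have h0 : 0 ≤ sInf (S lam) := hpos lam h
      have hx' : sInf (S lam) ^ 3 < x := hx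
      have hy' : sInf (S lam) ^ 3 < y := hy
      have hx0 : 0 < x := lt_of_le_of_lt (by positivity) hx'
      have hy0 : 0 < y := lt_of_le_of_lt (by positivity) hy'
      have hm0 : 0 < min x y := lt_min hx0 hy0
      have hc : (min x y ^ (1 / 3 : ℝ)) ^ 3 = min x y := by
        rw [← Real.rpow_natCast, ← Real.rpow_mul hm0.le]
        norm_num
      have hlt : sInf (S lam) < min x y ^ (1 / 3 : ℝ) := by
        refine lt_of_pow_lt_pow_left₀ 3 (Real.rpow_nonneg hm0.le _) ?_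
        rw [hc]
        exact lt_min hx' hy'
      obtain ⟨L', hL', hlt'⟩ := exists_lt_of_csInf_lt (hne lam h) hlt
      have h3 : L' ^ 3 < min x y := by
        rw [← hc]
        exact pow_lt_pow_left₀ hlt' hL'.1 (by norm_num)
      exact (hL'.2 lam h.1 le_rfl).1.2 (h3.trans_le (min_le_left _ _))
        (h3.trans_le (min_le_right _ _)) ha hb hab
    · intro x hx y hy hxy
      obtain ⟨L', hL', hlt'⟩ := exists_lt_of_csInf_lt (hne lam h) (show sInf (S lam) < x from hx)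
      exact (hL'.2 lam h.1 le_rfl).2.1 hlt' (hlt'.trans_le hxy) hxy
    · intro l hl hd
      obtain ⟨L', hL', hlt'⟩ := exists_lt_of_csInf_lt (hne lam h) hl
      exact (hL'.2 lam h.1 le_rfl).2.2 l hlt' hd

end Pool.Agent.Results.MP_9cf0c9_mp.IonRegimes
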