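import Pool.Agent.Lib.MP_9cf0c9_mp.Tr.BaseC
import Pool.Agent.Lib.MP_9cf0c9_mp.Tr.Mol

set_option autoImplicit false

namespace Pool.Agent.Results.MP_9cf0c9_mp.IonicPressure

open MeasureTheory Set Pool.Agent.Lib.MP_9cf0c9_mp

/-- The energy does not increase under dilation, so the pressure is nonnegative. -/
theorem result {k : ℕ} (z : Fin k → ℝ) (hz : ∀ j, 0 ≤ z j) (R : Fin k → E3)
    (hR : Function.Injective R) (lam : ℝ) (hlam : 0 ≤ lam) :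
    (∀ l₁ l₂ : ℝ, 0 < l₁ → l₁ ≤ l₂ → dilated z R lam l₂ ≤ dilated z R lam l₁) ∧
      ∀ l d : ℝ, 0 < l → HasDerivAt (dilated z R lam) d l → 0 ≤ -(1 / (3 * l ^ 2)) * d := by
  have hmono : ∀ l₁ l₂ : ℝ, 0 < l₁ → l₁ ≤ l₂ → dilated z R lam l₂ ≤ dilated z R lam l₁ :=
    fun l₁ l₂ h1 h2 => dilated_anti hz hR hlam h1 h2
  refine ⟨hmono, fun l d hl hd => ?_⟩
  have hneg : d ≤ 0 :=
    nonpos_of_anti (Ioi_mem_nhds hl) (fun a ha b _ hab => hmono a b ha hab) hd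
  have h3 : 0 ≤ 1 / (3 * l ^ 2) := by positivity
  nlinarith

end Pool.Agent.Results.MP_9cf0c9_mp.IonicPressure
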