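import Pool.Agent.Lib.MP_9cf0c9_mp.Tr.BaseC
import Pool.Agent.Lib.MP_9cf0c9_mp.Tr.ColF
import Pool.Agent.Lib.MP_9cf0c9_mp.Tr.Fin
import Pool.Agent.Lib.MP_9cf0c9_mp.Tr.Mol

set_option autoImplicit false

namespace Pool.Agent.Results.MP_9cf0c9_mp.TwoNuclei

open MeasureTheory Set Filter Topology Pool.Agent Pool.Agent.Lib.MP_9cf0c9_mp

/-- Two nuclei whose charges differ at most by the factor `34/5`, any number of electrons: the
energy is differentiable in `l`, the pressure is nonincreasing, the energy is a convex function of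
the volume, and the reciprocal compressibility is nonnegative. -/
theorem result (z : Fin 2 → ℝ) (hz : ∀ j, 0 ≤ z j) (h01 : 5 * z 0 ≤ 34 * z 1)
    (h10 : 5 * z 1 ≤ 34 * z 0) (R : Fin 2 → E3) (hR : Function.Injective R)
    (lam : ℝ) (hlam : 0 ≤ lam) :
    (∀ l : ℝ, 0 < l → DifferentiableAt ℝ (dilated z R lam) l) ∧
      AntitoneOn (pressure z R lam) (Ioi 0) ∧
      ConvexOn ℝ (Ioi 0) (fun v : ℝ => dilated z R lam (v ^ (1 / 3 : ℝ))) ∧
      ∀ l : ℝ, 0 < l → DifferentiableAt ℝ (pressure z R lam) l →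
        0 ≤ -(l / 3) * deriv (pressure z R lam) l := by
  obtain ⟨h1, h2, h3, h4⟩ := two_of_ratio34 z hz h01 h10 R hR lam hlam
  exact ⟨h2, h3, h1, h4⟩

end Pool.Agent.Results.MP_9cf0c9_mp.TwoNuclei
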